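import Pool.Agent.X38.CoDegC

/-!
# The codegree Turán density of the complete `k`-graph on `k + 1` vertices tends to one

The codegree Turán density of `K_{k+1}^k` tends to `1` as `k → ∞`. In particular it is not `1/2`
for all `k ≥ 2`.
-/

set_option autoImplicit false

namespace Pool.Agent.Results.MP_af2786_co.CodegreeTendsToOne

open Finset Pool.Agent.X38.CoDeg

/-- A `k`-graph on the vertex set `V`: a set of `k`-element subsets of `V`. -/
structure KGraph (k : ℕ) (V : Type) where
  /-- the edges -/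
  edges : Set (Finset V)
  /-- every edge has `k` elements -/
  card_edge : ∀ e ∈ edges, e.card = k

/-- `H` contains a copy of `F`: some injection sends every edge of `F` to an edge of `H`. -/
def Contains {k : ℕ} {V U : Type} (H : KGraph k V) (F : KGraph k U) : Prop :=
  ∃ f : U ↪ V, ∀ e ∈ F.edges, e.map f ∈ H.edges

/-- The complete `k`-graph `K_{k+1}^k` on `k + 1` vertices. -/
def completeGraph (k : ℕ) : KGraph k (Fin (k + 1)) where
  edges := {e | e.card = k}
  card_edge := fun _ h => h

/-- The codegree of `T`: the number of vertices `v ∉ T` with `T ∪ {v}` an edge. -/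
noncomputable def codegree {k n : ℕ} (H : KGraph k (Fin n)) (T : Finset (Fin n)) : ℕ :=
  {v : Fin n | v ∉ T ∧ insert v T ∈ H.edges}.ncard

/-- The minimum codegree: the minimum of the codegree over all `(k - 1)`-sets of vertices. -/
noncomputable def minCodegree {k n : ℕ} (H : KGraph k (Fin n)) : ℕ :=
  sInf {d | ∃ T : Finset (Fin n), T.card = k - 1 ∧ codegree H T = d}

/-- `ex_{k-1}(n, F)`: the largest minimum codegree of an `F`-free `k`-graph on `n` vertices. -/
noncomputable def ex {k : ℕ} {U : Type} (n : ℕ) (F : KGraph k U) : ℕ :=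
  sSup {d | ∃ H : KGraph k (Fin n), ¬ Contains H F ∧ minCodegree H = d}

/-- The codegree Turán density `π_{k-1}(F)`. -/
noncomputable def codegreeDensity {k : ℕ} {U : Type} (F : KGraph k U) : ℝ :=
  Filter.limsup (fun n : ℕ => (ex n F : ℝ) / n) Filter.atTop

lemma minCodegree_le {k n : ℕ} (H : KGraph k (Fin n)) : minCodegree H ≤ n := by
  unfold minCodegree
  rcases Set.eq_empty_or_nonempty {d | ∃ T : Finset (Fin n), T.card = k - 1 ∧ codegree H T = d}
    with h | h
  · rw [h]; simp
  · obtain ⟨T, -, hT⟩ := Nat.sInf_mem h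
    rw [← hT]
    unfold codegree
    calc _ ≤ (Set.univ : Set (Fin n)).ncard := Set.ncard_le_ncard (Set.subset_univ _)
      _ = n := by rw [Set.ncard_univ, Nat.card_eq_fintype_card, Fintype.card_fin]

lemma bdd {k : ℕ} {U : Type} (n : ℕ) (F : KGraph k U) :
    BddAbove {d | ∃ H : KGraph k (Fin n), ¬ Contains H F ∧ minCodegree H = d} := by
  refine ⟨n, ?_⟩
  rintro d ⟨H, -, rfl⟩
  exact minCodegree_le H

lemma ex_le {k : ℕ} {U : Type} (n : ℕ) (F : KGraph k U) : ex n F ≤ n := by
  unfold ex
  refine csSup_le' ?_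
  rintro d ⟨H, -, rfl⟩
  exact minCodegree_le H

lemma le_ex {k : ℕ} {U : Type} {n : ℕ} {F : KGraph k U} (H : KGraph k (Fin n))
    (h : ¬ Contains H F) : minCodegree H ≤ ex n F :=
  le_csSup (bdd n F) ⟨H, h, rfl⟩

lemma ratio_le_one {k : ℕ} {U : Type} (n : ℕ) (F : KGraph k U) : (ex n F : ℝ) / n ≤ 1 := by
  rcases Nat.eq_zero_or_pos n with h | h
  · subst h; simp
  · rw [div_le_one (by exact_mod_cast h)]
    exact_mod_cast ex_le n F

lemma density_le_one {k : ℕ} {U : Type} (F : KGraph k U) : codegreeDensity F ≤ 1 := by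
  unfold codegreeDensity
  refine Filter.limsup_le_of_le ?_ (Filter.Eventually.of_forall fun n => ratio_le_one n F)
  exact Filter.isCoboundedUnder_le_of_le (Filter.atTop) (x := 0)
    (fun n => by positivity)

/-- The construction. -/
lemma construction (m : ℕ) (hm : 2 ≤ m) : ∃ K : ℕ, ∀ k ≥ K, ∀ N : ℕ, ∃ M ≥ N, 1 ≤ M ∧
    m * (M * m ^ 2) ≤ ex (m * (M * m ^ 2)) (completeGraph k) + (k - 1) + 4 * m ^ 2 * M := by
  classical
  have hl : 2 ≤ m ^ 2 := by nlinarith
  obtain ⟨θ, hθ⟩ := exists_theta (m ^ 2) (m ^ 2) hl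
  refine ⟨m * θ + 2 * m + 1, fun k hk N => ?_⟩
  obtain ⟨M0, hM0⟩ := Filter.eventually_atTop.1 (eventually_small (m ^ 2) θ)
  refine ⟨max M0 (max N (max k 1)), by simp, by simp, ?_⟩
  have hM := hM0 (max M0 (max N (max k 1))) (le_max_left _ _)
  have hMk : k ≤ max M0 (max N (max k 1)) := by simp
  have hM1 : 1 ≤ max M0 (max N (max k 1)) := by simp
  generalize max M0 (max N (max k 1)) = M at hM hMk hM1
  have : NeZero M := ⟨by omega⟩
  have : NeZero (m ^ 2) := ⟨by omega⟩
  set l := m ^ 2 with hldef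
  obtain ⟨F, hF⟩ := hash_general (I := ZMod M) (W := ZMod M × ZMod l) l l θ hθ
    (by rw [Fintype.card_prod, ZMod.card, ZMod.card]; exact hM)
  rw [ZMod.card] at hF
  have hcard : Fintype.card (Fin (m * (M * l))) = Fintype.card (Fin m × (ZMod M × ZMod l)) := by
    rw [Fintype.card_prod, Fintype.card_prod, ZMod.card, ZMod.card, Fintype.card_fin,
      Fintype.card_fin]
  set n := m * (M * l) with hn
  let φ : Fin n ≃ Fin m × (ZMod M × ZMod l) := Fintype.equivOfCardEq hcard
  have hm0 : 0 < m := by omega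
  let H : KGraph k (Fin n) :=
    { edges := {e | e.card = k ∧ ¬ NonEdge θ F (e.map φ.toEmbedding)}
      card_edge := fun e he => he.1 }
  have hfree : ¬ Contains H (completeGraph k) := by
    rintro ⟨f, hf⟩
    have hT : 0 < tot θ (prof ((univ.map f).map φ.toEmbedding)) := by
      have h1 := tot_ge θ ((univ.map f).map φ.toEmbedding)
      rw [card_map, card_map, card_univ, Fintype.card_fin] at h1
      omega
    obtain ⟨v, hv, hne⟩ := hit hm0 θ F _ hT
    obtain ⟨b, hb, rfl⟩ := mem_map.1 hv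
    obtain ⟨a, -, rfl⟩ := mem_map.1 hb
    have h2 := hf (univ.erase a) (by
      show (univ.erase a).card = k
      rw [card_erase_of_mem (mem_univ _), card_univ, Fintype.card_fin]; rfl)
    apply h2.2
    rw [map_erase, map_erase]
    exact hne
  refine le_trans ?_ (Nat.add_le_add_right (Nat.add_le_add_right (le_ex H hfree) _) _)
  -- the minimum codegree
  have hnek : k ≤ n := by
    refine hMk.trans ?_
    rw [hn]
    calc M = 1 * (M * 1) := by ring
      _ ≤ m * (M * l) := Nat.mul_le_mul (by omega) (Nat.mul_le_mul_left _ (by omega))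
  have hne : {d | ∃ T : Finset (Fin n), T.card = k - 1 ∧ codegree H T = d}.Nonempty := by
    obtain ⟨T, -, hT⟩ := exists_subset_card_eq (s := (univ : Finset (Fin n))) (n := k - 1)
      (by rw [card_univ, Fintype.card_fin]; omega)
    exact ⟨_, T, hT, rfl⟩
  obtain ⟨T, hTc, hT⟩ := Nat.sInf_mem hne
  have hmin : minCodegree H = codegree H T := hT.symm
  rw [hmin]
  have hk1 : 1 ≤ k := by omega
  -- few non-edges
  have hS : 2 * m ≤ tot θ (prof (T.map φ.toEmbedding)) := by
    have h1 := tot_ge θ (T.map φ.toEmbedding)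
    rw [card_map, hTc] at h1
    omega
  have hfew := few_nonedges hm0 θ F hF (T.map φ.toEmbedding) hS
  have hfew2 : (univ.filter fun v : Fin n => v ∉ T ∧
      NonEdge θ F ((insert v T).map φ.toEmbedding)).card ≤ 4 * l * M := by
    refine le_trans (le_trans ?_ hfew) ?_
    · refine card_le_card_of_injOn (fun v => φ v) ?_ (fun a _ b _ h => φ.injective h)
      intro v hv
      simp only [coe_filter, mem_univ, true_and, Set.mem_ofPred_eq] at hv ⊢
      refine ⟨?_, ?_⟩
      · intro h
        obtain ⟨w, hw, hwe⟩ := mem_map.1 h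
        have : w = v := φ.injective hwe
        exact hv.1 (this ▸ hw)
      · have := hv.2
        rw [map_insert] at this
        exact this
    · rw [hldef]
      have : m * (m * (2 * M)) = 2 * (M * m ^ 2) := by ring
      rw [this]
      have : 4 * m ^ 2 * M = 2 * (M * m ^ 2) + 2 * (M * m ^ 2) := by ring
      rw [this]
  have hcod : codegree H T = (univ.filter fun v : Fin n => v ∉ T ∧ insert v T ∈ H.edges).card := by
    unfold codegree
    rw [Set.ncard_eq_toFinset_card']
    congr 1
    ext v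
    simp
  rw [hcod]
  have hcover : (univ : Finset (Fin n)) ⊆
      ((univ.filter fun v : Fin n => v ∉ T ∧ insert v T ∈ H.edges) ∪ T) ∪
      (univ.filter fun v : Fin n => v ∉ T ∧ NonEdge θ F ((insert v T).map φ.toEmbedding)) := by
    intro v _
    simp only [mem_union, mem_filter, mem_univ, true_and]
    by_cases h1 : v ∈ T
    · exact Or.inl (Or.inr h1)
    · by_cases h2 : NonEdge θ F ((insert v T).map φ.toEmbedding)
      · exact Or.inr ⟨h1, h2⟩
      · refine Or.inl (Or.inl ⟨h1, ?_, h2⟩)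
        rw [card_insert_of_notMem h1, hTc]
        omega
  have h3 := card_le_card hcover
  have h4 := card_union_le
    ((univ.filter fun v : Fin n => v ∉ T ∧ insert v T ∈ H.edges) ∪ T)
    (univ.filter fun v : Fin n => v ∉ T ∧ NonEdge θ F ((insert v T).map φ.toEmbedding))
  have h5 := card_union_le (univ.filter fun v : Fin n => v ∉ T ∧ insert v T ∈ H.edges) T
  rw [card_univ, Fintype.card_fin] at h3
  rw [hTc] at h5
  omega

lemma density_ge (m : ℕ) (hm : 2 ≤ m) : ∃ K : ℕ, ∀ k ≥ K,
    1 - 4 / (m : ℝ) ≤ codegreeDensity (completeGraph k) := by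
  obtain ⟨K, hK⟩ := construction m hm
  refine ⟨K, fun k hk => ?_⟩
  refine le_of_forall_pos_le_add fun δ hδ => ?_
  rw [← sub_le_iff_le_add]
  unfold codegreeDensity
  refine Filter.le_limsup_of_frequently_le ?_
    (Filter.isBoundedUnder_of ⟨1, fun n => ratio_le_one n _⟩)
  rw [Filter.frequently_atTop]
  intro N
  obtain ⟨N1, hN1⟩ := exists_nat_gt ((k : ℝ) / δ)
  obtain ⟨M, hMN, hM1, hM⟩ := hK k hk (max N N1)
  have hm0 : 0 < m := by omega
  have hMle : M ≤ m * (M * m ^ 2) := by
    calc M = 1 * (M * 1) := by ring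
      _ ≤ m * (M * m ^ 2) := Nat.mul_le_mul (by omega) (Nat.mul_le_mul_left _ (by nlinarith))
  refine ⟨m * (M * m ^ 2), ?_, ?_⟩
  · exact ((le_max_left _ _).trans hMN).trans hMle
  · have hmR : (0 : ℝ) < m := by exact_mod_cast hm0
    have hMR : (0 : ℝ) < M := by exact_mod_cast hM1
    have hnR : (0 : ℝ) < ((m * (M * m ^ 2) : ℕ) : ℝ) := by push_cast; positivity
    rw [le_div_iff₀ hnR]
    have h1 : ((m * (M * m ^ 2) : ℕ) : ℝ) ≤
        (ex (m * (M * m ^ 2)) (completeGraph k) : ℝ) + ((k - 1 : ℕ) : ℝ) + 4 * m ^ 2 * M := by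
      exact_mod_cast hM
    have h2 : (k : ℝ) ≤ δ * ((m * (M * m ^ 2) : ℕ) : ℝ) := by
      have h3 : (k : ℝ) / δ ≤ ((m * (M * m ^ 2) : ℕ) : ℝ) := by
        refine hN1.le.trans ?_
        exact_mod_cast ((le_max_right _ _).trans hMN).trans hMle
      rw [div_le_iff₀ hδ] at h3
      linarith
    have h4 : (((k - 1 : ℕ)) : ℝ) ≤ k := by exact_mod_cast Nat.sub_le _ _
    have h5 : 4 / (m : ℝ) * ((m * (M * m ^ 2) : ℕ) : ℝ) = 4 * m ^ 2 * M := by
      push_cast
      field_simp
    nlinarith

/-- **Main theorem.** The codegree Turán density of `K_{k+1}^k` tends to `1` as `k → ∞`; so it is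
not equal to `1/2` for all `k ≥ 2`. -/
theorem result :
    Filter.Tendsto (fun k : ℕ => codegreeDensity (completeGraph k)) Filter.atTop (nhds 1) ∧
    ¬ ∀ k : ℕ, 2 ≤ k → codegreeDensity (completeGraph k) = 1 / 2 := by
  have h1 : Filter.Tendsto (fun k : ℕ => codegreeDensity (completeGraph k)) Filter.atTop
      (nhds 1) := by
    rw [Metric.tendsto_atTop]
    intro ε hε
    obtain ⟨m, hm⟩ := exists_nat_gt (4 / ε)
    obtain ⟨K, hK⟩ := density_ge (max m 2) (le_max_right _ _)
    refine ⟨K, fun k hk => ?_⟩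
    have h2 := hK k hk
    have h3 := density_le_one (completeGraph k)
    have h4 : 4 / ((max m 2 : ℕ) : ℝ) < ε := by
      have h5 : (4 : ℝ) / ε < ((max m 2 : ℕ) : ℝ) :=
        hm.trans_le (by exact_mod_cast le_max_left _ _)
      have h6 : (0 : ℝ) < ((max m 2 : ℕ) : ℝ) := lt_trans (by positivity) h5
      rw [div_lt_iff₀ hε] at h5
      rw [div_lt_iff₀ h6]
      linarith
    rw [Real.dist_eq, abs_lt]
    constructor <;> linarith
  refine ⟨h1, fun hcon => ?_⟩
  rw [Metric.tendsto_atTop] at h1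
  obtain ⟨K, hK⟩ := h1 (1 / 4) (by norm_num)
  have h2 := hK (max K 2) (le_max_left _ _)
  rw [hcon (max K 2) (le_max_right _ _), Real.dist_eq, abs_lt] at h2
  linarith [h2.1]

end Pool.Agent.Results.MP_af2786_co.CodegreeTendsToOne
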